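import Pool.Agent.H94.LP4.H18.FatBasic

namespace Pool.Agent.H18.Fat

open MvPolynomial Finset

/-! ### Interpolation on lower sets of a grid -/

/-- Divided differences: coefficients extracting the coefficient of `x ^ n` from the values at
the first `n + 1` nodes. -/
theorem exists_divided_difference {s : ℕ} {t : ℕ → ℂ}
    (ht : ∀ i < s, ∀ j < s, t i = t j → i = j) {n : ℕ} (hn : n < s) :
    ∃ w : ℕ → ℂ, (∀ l, n < l → w l = 0) ∧
      ∀ k ≤ n, ∑ l : Fin s, w l * t l ^ k = if k = n then 1 else 0 := by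
  classical
  let V : Matrix (Fin (n + 1)) (Fin (n + 1)) ℂ := Matrix.vandermonde (fun i => t i)
  have hdet : IsUnit V.det := by
    rw [isUnit_iff_ne_zero]
    refine Matrix.det_vandermonde_ne_zero_iff.2 fun i j hij => ?_
    exact Fin.ext (ht i (by omega) j (by omega) hij)
  let u : Fin (n + 1) → ℂ := fun i => V⁻¹ (Fin.last n) i
  have hu : ∀ k : Fin (n + 1), ∑ i : Fin (n + 1), u i * t i ^ (k : ℕ) =
      if k = Fin.last n then 1 else 0 := by
    intro k
    have h1 : (V⁻¹ * V) (Fin.last n) k = (1 : Matrix (Fin (n + 1)) (Fin (n + 1)) ℂ)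
        (Fin.last n) k := by
      rw [Matrix.nonsing_inv_mul _ hdet]
    rw [Matrix.mul_apply, Matrix.one_apply] at h1
    simp only [V, Matrix.vandermonde_apply] at h1
    simp only [u, V, h1, eq_comm]
  let w : ℕ → ℂ := fun l => if h : l < n + 1 then u ⟨l, h⟩ else 0
  have hw : ∀ l, n < l → w l = 0 := by
    intro l hl
    exact dif_neg (by omega)
  refine ⟨w, hw, ?_⟩
  intro k hk
  have h2 := hu ⟨k, by omega⟩
  have h3 : ∑ i : Fin (n + 1), u i * t i ^ k = ∑ l ∈ range (n + 1), w l * t l ^ k := by
    rw [sum_range]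
    refine sum_congr rfl fun i _ => ?_
    have : w (i : ℕ) = u i := dif_pos i.2
    rw [this]
  have h4 : ∑ l : Fin s, w l * t l ^ k = ∑ l ∈ range s, w l * t l ^ k :=
    (sum_range (fun l => w l * t l ^ k)).symm
  have h5 : ∑ l ∈ range (n + 1), w l * t l ^ k = ∑ l ∈ range s, w l * t l ^ k := by
    apply sum_subset
    · intro l hl
      rw [mem_range] at *
      omega
    · intro l _ hl
      rw [mem_range] at hl
      rw [hw l (by omega), zero_mul]
  rw [h4, ← h5, ← h3]
  simp only at h2
  rw [h2]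
  congr 1
  simp [Fin.ext_iff]

/-- Sum of the entries of a grid vector. -/
def gsum {r s : ℕ} (a : Fin r → Fin s) : ℕ := ∑ j, (a j : ℕ)

/-- If a combination of monomials with exponents in a sublevel set of the grid vanishes at the
grid points of that set then it is zero. -/
theorem eq_zero_of_grid {r s : ℕ} {t : ℕ → ℂ}
    (ht : ∀ i < s, ∀ j < s, t i = t j → i = j) (N : ℕ) (c : (Fin r → Fin s) → ℂ)
    (hc : ∀ a, N < gsum a → c a = 0)
    (h : ∀ b : Fin r → Fin s, gsum b ≤ N →
      ∑ a, c a * ∏ j, t (b j) ^ (a j : ℕ) = 0) : ∀ a, c a = 0 := by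
  classical
  by_contra hne
  push Not at hne
  -- choose a nonzero coefficient with maximal sum
  obtain ⟨a₀, ha₀⟩ := hne
  have hfin : (univ.filter fun a : Fin r → Fin s => c a ≠ 0).Nonempty :=
    ⟨a₀, by simp [ha₀]⟩
  obtain ⟨a, ha, hmax⟩ := exists_max_image _ gsum hfin
  rw [mem_filter] at ha
  have hcN : gsum a ≤ N := by
    by_contra hlt
    exact ha.2 (hc a (by omega))
  choose w hw0 hw using fun j : Fin r => exists_divided_difference ht (a j).2
  have key : ∑ b : Fin r → Fin s, (∏ j, w j (b j)) *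
      ∑ x, c x * ∏ j, t (b j) ^ (x j : ℕ) = 0 := by
    refine sum_eq_zero fun b _ => ?_
    by_cases hb : ∀ j, (b j : ℕ) ≤ a j
    · have : gsum b ≤ gsum a := sum_le_sum fun j _ => hb j
      rw [h b (by omega), mul_zero]
    · push Not at hb
      obtain ⟨j, hj⟩ := hb
      rw [prod_eq_zero (mem_univ j) (hw0 j _ hj), zero_mul]
  have key2 : ∑ b : Fin r → Fin s, (∏ j, w j (b j)) *
      ∑ x, c x * ∏ j, t (b j) ^ (x j : ℕ) =
      ∑ x, c x * ∏ j, ∑ l : Fin s, w j l * t l ^ (x j : ℕ) := by
    simp_rw [mul_sum]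
    rw [sum_comm]
    refine sum_congr rfl fun x _ => ?_
    rw [prod_univ_sum, Fintype.piFinset_univ, mul_sum]
    refine sum_congr rfl fun b _ => ?_
    rw [prod_mul_distrib]
    ring
  rw [key2, sum_eq_single a] at key
  · have h1 : ∏ j, ∑ l : Fin s, w j l * t l ^ (a j : ℕ) = 1 := by
      refine prod_eq_one fun j _ => ?_
      rw [hw j _ le_rfl, if_pos rfl]
    rw [h1, mul_one] at key
    exact ha.2 key
  · intro x _ hx
    by_cases hcx : c x = 0
    · rw [hcx, zero_mul]
    · have h1 : gsum x ≤ gsum a := hmax x (by simp [hcx])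
      obtain ⟨j, hj⟩ : ∃ j, (x j : ℕ) < a j := by
        by_contra hall
        push Not at hall
        apply hx
        have h2 : gsum x = gsum a := le_antisymm h1 (sum_le_sum fun j _ => hall j)
        have h3 := (sum_eq_sum_iff_of_le fun j (_ : j ∈ univ) => hall j).1 h2.symm
        funext j
        exact Fin.ext (h3 j (mem_univ j)).symm
      rw [prod_eq_zero (mem_univ j), mul_zero]
      rw [hw j _ hj.le, if_neg (by omega)]
  · intro h1
    exact absurd (mem_univ a) h1

/-! ### Moments -/

/-- The first `N` binomial moments of the coefficient vector `g` vanish. -/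
def Mom {n d : ℕ} (g : mons n d → ℂ) (N : ℕ) : Prop :=
  ∀ β : Fin n →₀ ℕ, β.degree ≤ N →
    ∑ α : mons n d, g α * ∏ j, ((α.1 j).choose (β j) : ℂ) = 0

theorem prod_choose_mul {n : ℕ} (α β : Fin n →₀ ℕ) (j : Fin n) :
    (α j : ℂ) * ∏ i, ((α i).choose (β i) : ℂ) =
      ((β j : ℂ) + 1) * ∏ i, ((α i).choose ((β + Finsupp.single j 1 : Fin n →₀ ℕ) i) : ℂ) +
      (β j : ℂ) * ∏ i, ((α i).choose (β i) : ℂ) := by
  classical
  rw [← mul_prod_erase univ (fun i => ((α i).choose (β i) : ℂ)) (mem_univ j),
    ← mul_prod_erase univ (fun i => ((α i).choose ((β + Finsupp.single j 1 : Fin n →₀ ℕ) i) : ℂ))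
      (mem_univ j)]
  have h2 : ∏ x ∈ univ.erase j, ((α x).choose ((β + Finsupp.single j 1 : Fin n →₀ ℕ) x) : ℂ) =
      ∏ x ∈ univ.erase j, ((α x).choose (β x) : ℂ) := by
    refine prod_congr rfl fun x hx => ?_
    have hx' : j ≠ x := fun h => (ne_of_mem_erase hx) h.symm
    simp [Finsupp.single_eq_of_ne hx'.symm]
  rw [h2]
  simp only [Finsupp.add_apply, Finsupp.single_eq_same]
  have h3 : ((α j).choose (β j + 1) : ℂ) * ((β j : ℂ) + 1) =
      ((α j).choose (β j) : ℂ) * ((α j : ℂ) - (β j : ℂ)) := by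
    rcases le_or_gt (β j) (α j) with h | h
    · have := Nat.choose_succ_right_eq (α j) (β j)
      have h4 : (((α j).choose (β j + 1) * (β j + 1) : ℕ) : ℂ) =
        (((α j).choose (β j) * (α j - β j) : ℕ) : ℂ) := by rw [this]
      push_cast [Nat.cast_sub h] at h4
      exact h4
    · rw [Nat.choose_eq_zero_of_lt h, Nat.choose_eq_zero_of_lt (by omega)]
      simp
  linear_combination (-(∏ x ∈ univ.erase j, ((α x).choose (β x) : ℂ))) * h3

theorem Mom.mul {n d N : ℕ} {g : mons n d → ℂ} (h : Mom g (N + 1)) (j : Fin n) (c : ℂ) :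
    Mom (fun α => ((α.1 j : ℂ) - c) * g α) N := by
  intro β hβ
  have h1 := h β (by omega)
  have h2 := h (β + Finsupp.single j 1) (by simp only [map_add, Finsupp.degree_single]; omega)
  have h3 : ∀ α : mons n d, ((α.1 j : ℂ) - c) * g α * ∏ i, ((α.1 i).choose (β i) : ℂ) =
      ((β j : ℂ) + 1) * (g α * ∏ i, ((α.1 i).choose
        ((β + Finsupp.single j 1 : Fin n →₀ ℕ) i) : ℂ)) +
      ((β j : ℂ) - c) * (g α * ∏ i, ((α.1 i).choose (β i) : ℂ)) := by
    intro α
    have := prod_choose_mul α.1 β j
    linear_combination (g α) * this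
  rw [sum_congr rfl fun α _ => h3 α, sum_add_distrib, ← mul_sum, ← mul_sum, h1, h2]
  simp

theorem Mom.prod {n d : ℕ} {κ : Type*} [DecidableEq κ] (J : κ → Fin n) (c : κ → ℂ)
    (T : Finset κ) : ∀ {N : ℕ} {g : mons n d → ℂ}, Mom g (N + T.card) →
      Mom (fun α => (∏ i ∈ T, ((α.1 (J i) : ℂ) - c i)) * g α) N := by
  induction T using Finset.induction_on with
  | empty =>
    intro N g h
    simpa using h
  | insert a T ha ih =>
    intro N g h
    rw [card_insert_of_notMem ha] at h
    have h1 : Mom (fun α => ((α.1 (J a) : ℂ) - c a) * g α) (N + T.card) := by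
      apply Mom.mul
      have : N + T.card + 1 = N + (T.card + 1) := by ring
      rw [this]
      exact h
    have h2 := ih h1
    have h3 : (fun α : mons n d => (∏ i ∈ insert a T, ((α.1 (J i) : ℂ) - c i)) * g α) =
        fun α => (∏ i ∈ T, ((α.1 (J i) : ℂ) - c i)) * (((α.1 (J a) : ℂ) - c a) * g α) := by
      funext α
      rw [prod_insert ha]
      ring
    rw [h3]
    exact h2

theorem Mom.sum_eq_zero {n d N : ℕ} {g : mons n d → ℂ} (h : Mom g N) :
    ∑ α, g α = 0 := by
  have := h 0 (by simp)
  simpa using this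

/-- Order of vanishing in terms of moments. -/
theorem sum_choose_eq_zero {n d : ℕ} {q : Fin n → ℂ} {f : mons n d → ℂ} {m : ℕ}
    (h : VanishesToOrder (toPoly n d f) q m) {β : Fin n →₀ ℕ} (hβ : β.degree < m) :
    ∑ α : mons n d, f α * (∏ j, q j ^ (α.1 j)) * ∏ j, ((α.1 j).choose (β j) : ℂ) = 0 := by
  have h1 := h β hβ
  rw [coeff_shift_toPoly] at h1
  have h2 : ∀ α : mons n d, f α * (∏ j, q j ^ (α.1 j)) * ∏ j, ((α.1 j).choose (β j) : ℂ) =
      (∏ j, q j ^ β j) * (f α * tc q α.1 β) := by
    intro α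
    have h3 : (∏ j, q j ^ (α.1 j)) * ∏ j, ((α.1 j).choose (β j) : ℂ) =
        (∏ j, q j ^ β j) * tc q α.1 β := by
      unfold tc
      rw [← prod_mul_distrib, ← prod_mul_distrib]
      refine prod_congr rfl fun j _ => ?_
      rcases le_or_gt (β j) (α.1 j) with h | h
      · have h4 : α.1 j = β j + (α.1 j - β j) := by omega
        have h5 : q j ^ (α.1 j) = q j ^ β j * q j ^ (α.1 j - β j) := by
          rw [← pow_add, ← h4]
        rw [h5]
        ring
      · rw [Nat.choose_eq_zero_of_lt h]
        simp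
    rw [mul_assoc, h3]
    ring
  rw [sum_congr rfl fun α _ => h2 α, ← mul_sum, h1, mul_zero]

/-! ### The grid configuration -/

/-- The point `(1 : ζ ^ b_1 : ... : ζ ^ b_r)`. -/
noncomputable def gridPt {r s : ℕ} (ζ : ℂ) (b : Fin r → Fin s) : Fin (r + 1) → ℂ :=
  Fin.cons 1 fun j => ζ ^ (b j : ℕ)

/-- Residues modulo `s` of all exponents but the first. -/
def res {r s : ℕ} (hs : 0 < s) (α : Fin (r + 1) →₀ ℕ) : Fin r → Fin s :=
  fun j => ⟨α j.succ % s, Nat.mod_lt _ hs⟩

theorem prod_gridPt {r s : ℕ} (hs : 0 < s) {ζ : ℂ} (hζ : ζ ^ s = 1) (b : Fin r → Fin s)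
    (α : Fin (r + 1) →₀ ℕ) :
    ∏ j, gridPt ζ b j ^ (α j) = ∏ j, (ζ ^ (b j : ℕ)) ^ (res hs α j : ℕ) := by
  rw [Fin.prod_univ_succ]
  simp only [gridPt, Fin.cons_zero, one_pow, one_mul, Fin.cons_succ]
  refine prod_congr rfl fun j _ => ?_
  have h1 : (ζ ^ (b j : ℕ)) ^ s = 1 := by
    rw [← pow_mul, mul_comm, pow_mul, hζ, one_pow]
  exact pow_eq_pow_mod _ h1

theorem sum_fiber {r s d : ℕ} (hs : 0 < s) (v : mons (r + 1) d → ℂ)
    (w : (Fin r → Fin s) → ℂ) :
    ∑ α : mons (r + 1) d, v α * w (res hs α.1) =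
      ∑ a : Fin r → Fin s, (∑ α : mons (r + 1) d, if res hs α.1 = a then v α else 0) * w a := by
  classical
  simp_rw [sum_mul]
  rw [sum_comm]
  refine sum_congr rfl fun α _ => ?_
  rw [sum_eq_single (res hs α.1)]
  · simp
  · intro b _ hb
    rw [if_neg (Ne.symm hb), zero_mul]
  · intro h
    exact absurd (mem_univ _) h

theorem sum_div_add_gsum {r s d : ℕ} (hs : 0 < s) {α : Fin (r + 1) →₀ ℕ}
    (hα : α ∈ mons (r + 1) d) :
    s * ∑ j, α j / s + α 0 % s + gsum (res hs α) = d := by
  rw [mem_mons, Finsupp.degree_eq_sum] at hα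
  unfold gsum res
  simp only
  rw [← hα, Fin.sum_univ_succ, Fin.sum_univ_succ, mul_add, mul_sum]
  have h1 := Nat.div_add_mod (α 0) s
  have h2 : ∑ j : Fin r, α j.succ = ∑ j : Fin r, (s * (α j.succ / s) + α j.succ % s) :=
    sum_congr rfl fun j _ => (Nat.div_add_mod _ _).symm
  rw [h2, sum_add_distrib]
  omega

/-- The grid configuration kills all forms of degree `d`. -/
theorem grid_core {r s d : ℕ} (hs : 0 < s) {ζ : ℂ} (hζ : IsPrimitiveRoot ζ s)
    (f : mons (r + 1) d → ℂ) (m : (Fin r → Fin s) → ℕ)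
    (hm : ∀ b, gsum b ≤ d → d < s * m b + gsum b)
    (h : ∀ b, VanishesToOrder (toPoly (r + 1) d f) (gridPt ζ b) (m b)) : ∀ α, f α = 0 := by
  classical
  have hζs : ζ ^ s = 1 := hζ.pow_eq_one
  have hinj : ∀ i < s, ∀ j < s, ζ ^ i = ζ ^ j → i = j := fun i hi j hj hij =>
    hζ.pow_inj hi hj hij
  have key : ∀ n, ∀ α : mons (r + 1) d, ∑ j, α.1 j / s = n → f α = 0 := by
    intro n
    induction n using Nat.strong_induction_on with
    | _ n ih =>
    -- all moments up to order `n` of each residue class vanish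
    have step1 : ∀ β : Fin (r + 1) →₀ ℕ, β.degree ≤ n → ∀ a : Fin r → Fin s,
        ∑ α : mons (r + 1) d, (if res hs α.1 = a then
          f α * ∏ j, ((α.1 j).choose (β j) : ℂ) else 0) = 0 := by
      intro β hβ
      rcases le_or_gt (s * n) d with hn | hn
      · refine eq_zero_of_grid hinj (d - s * n) _ ?_ ?_
        · intro a ha
          refine sum_eq_zero fun α _ => ?_
          split_ifs with hα
          · have h1 := sum_div_add_gsum hs α.2
            rw [hα] at h1
            have h2 : ∑ j, α.1 j / s < n := by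
              by_contra h3
              push Not at h3
              have h4 : s * n ≤ s * ∑ j, α.1 j / s := Nat.mul_le_mul_left s h3
              omega
            rw [ih _ h2 α rfl, zero_mul]
          · rfl
        · intro b hb
          have h1 : gsum b ≤ d := by omega
          have h2 := hm b h1
          have h3 : n < m b := by
            by_contra h4
            push Not at h4
            have h5 : s * m b ≤ s * n := Nat.mul_le_mul_left s h4
            omega
          have h4 := sum_choose_eq_zero (h b) (β := β) (by omega)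
          refine Eq.trans ?_ h4
          rw [← sum_fiber hs (fun α => f α * ∏ j, ((α.1 j).choose (β j) : ℂ))
            (fun a => ∏ j, (ζ ^ (b j : ℕ)) ^ (a j : ℕ))]
          refine sum_congr rfl fun α _ => ?_
          rw [prod_gridPt hs hζs b α.1]
          ring
      · intro a
        refine sum_eq_zero fun α _ => ?_
        split_ifs with hα
        · have h1 := sum_div_add_gsum hs α.2
          have h2 : ∑ j, α.1 j / s < n := by
            by_contra h3
            push Not at h3
            have h4 : s * n ≤ s * ∑ j, α.1 j / s := Nat.mul_le_mul_left s h3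
            omega
          rw [ih _ h2 α rfl, zero_mul]
        · rfl
    intro α₀ hα₀
    let g : mons (r + 1) d → ℂ := fun α => if res hs α.1 = res hs α₀.1 then f α else 0
    have hg : Mom g n := by
      intro β hβ
      rw [← step1 β hβ (res hs α₀.1)]
      refine sum_congr rfl fun α _ => ?_
      simp only [g]
      split_ifs <;> simp
    let T : Finset (Σ _ : Fin (r + 1), ℕ) := univ.sigma fun j => range (α₀.1 j / s)
    have hT : T.card = n := by
      rw [card_sigma]
      simp only [card_range]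
      exact hα₀
    have hg' : Mom g (0 + T.card) := by rw [hT, zero_add]; exact hg
    have hprod := (Mom.prod (fun x : (Σ _ : Fin (r + 1), ℕ) => x.1)
      (fun x => ((α₀.1 x.1 % s : ℕ) : ℂ) + (s : ℂ) * (x.2 : ℂ)) T hg').sum_eq_zero
    rw [sum_eq_single α₀] at hprod
    · rcases mul_eq_zero.1 hprod with h1 | h1
      · exfalso
        rw [prod_eq_zero_iff] at h1
        obtain ⟨x, hx, hx0⟩ := h1
        rw [mem_sigma, mem_range] at hx
        have h2 := Nat.div_add_mod (α₀.1 x.1) s
        have h3 : (α₀.1 x.1 : ℂ) = (s : ℂ) * ((α₀.1 x.1 / s : ℕ) : ℂ) +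
            ((α₀.1 x.1 % s : ℕ) : ℂ) := by exact_mod_cast h2.symm
        rw [h3] at hx0
        have h4 : (s : ℂ) * (((α₀.1 x.1 / s : ℕ) : ℂ) - (x.2 : ℂ)) = 0 := by
          linear_combination hx0
        rcases mul_eq_zero.1 h4 with h5 | h5
        · have : s = 0 := by exact_mod_cast h5
          omega
        · rw [sub_eq_zero] at h5
          have : α₀.1 x.1 / s = x.2 := by exact_mod_cast h5
          omega
      · simpa [g] using h1
    · intro α _ hα
      by_cases hres : res hs α.1 = res hs α₀.1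
      · -- some quotient is smaller
        have h1 := sum_div_add_gsum hs α.2
        have h2 := sum_div_add_gsum hs α₀.2
        rw [hres] at h1
        have hmod : α.1 0 % s = α₀.1 0 % s := by
          have h3 : (s * ∑ j, α.1 j / s + α.1 0 % s) % s =
              (s * ∑ j, α₀.1 j / s + α₀.1 0 % s) % s := by
            congr 1
            omega
          simpa [Nat.add_mod] using h3
        have hsum : ∑ j, α.1 j / s = ∑ j, α₀.1 j / s := by
          have h3 : s * ∑ j, α.1 j / s = s * ∑ j, α₀.1 j / s := by omega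
          exact Nat.eq_of_mul_eq_mul_left hs h3
        have hmods : ∀ j, α.1 j % s = α₀.1 j % s := by
          intro j
          refine Fin.cases hmod (fun i => ?_) j
          have := congrFun hres i
          exact Fin.ext_iff.1 this
        obtain ⟨j, hj⟩ : ∃ j, α.1 j / s < α₀.1 j / s := by
          by_contra hall
          push Not at hall
          apply hα
          have h3 := (sum_eq_sum_iff_of_le fun j (_ : j ∈ univ) => hall j).1 hsum.symm
          apply Subtype.ext
          ext j
          have h4 := h3 j (mem_univ j)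
          have h5 := hmods j
          have h6 := Nat.div_add_mod (α.1 j) s
          have h7 := Nat.div_add_mod (α₀.1 j) s
          rw [← h6, ← h7, h4, h5]
        have hx : (⟨j, α.1 j / s⟩ : (Σ _ : Fin (r + 1), ℕ)) ∈ T := by
          rw [mem_sigma]
          exact ⟨mem_univ _, mem_range.2 hj⟩
        rw [prod_eq_zero hx, zero_mul]
        simp only
        rw [← hmods j]
        have h6 := Nat.div_add_mod (α.1 j) s
        have h7 : (α.1 j : ℂ) = (s : ℂ) * ((α.1 j / s : ℕ) : ℂ) +
            ((α.1 j % s : ℕ) : ℂ) := by exact_mod_cast h6.symm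
        linear_combination h7
      · have : g α = 0 := if_neg hres
        rw [this, mul_zero]
    · intro h1
      exact absurd (mem_univ _) h1
  intro α
  exact key _ α rfl

end Pool.Agent.H18.Fat
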